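import Pool.Agent.X170.PC.Stm

/-! PC_FIN: words of bounded length with bounded letters are finitely many (MP_fa04ef_co, project of helper170). -/

set_option autoImplicit false

namespace Pool.Agent.X32.PC

open Pool.Agent.X170.PC

theorem t_FIN : S_FIN := by
  intro n
  refine ((List.finite_length_eq (Fin n) n).image (List.map Fin.val)).subset ?_
  rintro w ⟨h1, h2⟩
  refine ⟨w.pmap (fun a h => (⟨a, h⟩ : Fin n)) (fun a ha => by rw [← h1]; exact h2 a ha), ?_, ?_⟩
  · simp [h1]
  · rw [List.map_pmap]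
    simp

theorem fin_A (n : ℕ) : (A n).Finite :=
  (t_FIN n).subset fun _ h => ⟨h.1, h.2.1.2.1⟩

theorem fin_B (n : ℕ) : (B n).Finite :=
  (t_FIN n).subset fun _ h => ⟨h.1, h.2.1.2.1⟩

theorem fin_C (n : ℕ) : (C n).Finite :=
  (fin_B n).subset fun _ h => h.1

theorem fin_D (n : ℕ) : (D n).Finite :=
  (fin_A n).subset fun _ h => h.1

theorem t_FINA (n : ℕ) : (A n).Finite ∧ (B n).Finite ∧ (C n).Finite ∧ (D n).Finite :=
  ⟨fin_A n, fin_B n, fin_C n, fin_D n⟩

end Pool.Agent.X32.PC
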